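import Pool.Agent.R498.MP.Cun3

set_option autoImplicit false

/-!
# Strings of consecutive primes which start almost prime Cunningham chains of exact length, first kind
-/

namespace Pool.Agent.Results.MP_77cbc6_nt.PrimeStrings

open Filter

/-- The `i`-th number of the first-kind Cunningham sequence starting at `p`. -/
def member (i p : ℕ) : ℕ := 2 ^ i * (p + 1) - 1

/-- `n` has at most `r` prime factors, counted with multiplicity, all of them at least `w`. -/
def AlmostPrime (r : ℕ) (w : ℝ) (n : ℕ) : Prop :=
  n.primeFactorsList.length ≤ r ∧ ∀ q : ℕ, q.Prime → q ∣ n → w ≤ q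

/-- The primes in the interval `[x, x + C]` are exactly the numbers `x + s`, `s ∈ H`. -/
def PrimePattern (C : ℕ) (H : Finset ℕ) (x : ℕ) : Prop := ∀ y ≤ C, (x + y).Prime ↔ y ∈ H

/-- **Strings of consecutive primes starting almost prime Cunningham chains of exact length `k`.** Let
`c_i(p) = 2 ^ i (p + 1) - 1`. For all `k ≥ 1` and `m` there are `K`, `r` and `δ > 0` such that, for every finite
set `S` of at least `K` nonnegative integers and every `l`, there is an exponent `B` such that for all
large `N` there are a subset `H` of `S` with at least `m` elements and an arithmetic progression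
`n, n + d, ..., n + (l - 1) d` in `(N, 2 N]` with difference `1 ≤ d ≤ (log N) ^ B` such that for all its
terms `x` the primes in `[x, x + max S]` are exactly the numbers `x + s`, `s ∈ H`, and for all these primes
`p` all the members number `1, ..., k - 1` of the first-kind Cunningham sequence of `p` have at most `r`
prime factors, all of them at least `N ^ δ`, while the member number `k` is not prime. -/
theorem result (k m : ℕ) (hk : 1 ≤ k) : ∃ (K r : ℕ) (δ : ℝ), 0 < δ ∧
    ∀ S : Finset ℕ, K ≤ S.card → ∀ l : ℕ, ∃ B : ℕ, ∀ᶠ N : ℕ in atTop, ∃ H ⊆ S, m ≤ H.card ∧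
      ∃ n d : ℕ, 1 ≤ d ∧ (d : ℝ) ≤ Real.log N ^ B ∧ ∀ j < l,
        N < n + j * d ∧ n + j * d + S.sup id ≤ 2 * N ∧ PrimePattern (S.sup id) H (n + j * d) ∧
        ∀ s ∈ H, (∀ i, 1 ≤ i → i < k →
          AlmostPrime r ((N : ℝ) ^ δ) (member i (n + j * d + s))) ∧
          ¬ (member k (n + j * d + s)).Prime :=
  Pool.Agent.R498.MP.cun1_exact k hk m

end Pool.Agent.Results.MP_77cbc6_nt.PrimeStrings
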